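import Pool.Agent.H15.F8.Targets

/-!
# Project MP_f8d35d_nt: modules C3 and C4 (the Kummer generator of a local character is
unramified outside `13, 73, 19`)
-/

namespace F8
namespace H46

theorem norm_algebraMap {p : ℕ} [Fact p.Prime] (x : ℚ_[p]) :
    ‖algebraMap ℚ_[p] (Om p) x‖ = ‖x‖ := PadicAlgCl.norm_extends p x

theorem norm_natCast {p : ℕ} [Fact p.Prime] (n : ℕ) : ‖(n : Om p)‖ = ‖(n : ℚ_[p])‖ := by
  rw [← norm_algebraMap (p := p) (n : ℚ_[p]), map_natCast]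

theorem norm_nat_eq_one {p : ℕ} [Fact p.Prime] (n : ℕ) (h : p.Coprime n) : ‖(n : Om p)‖ = 1 := by
  rw [norm_natCast]
  exact Padic.norm_natCast_eq_one_iff.2 h

theorem om_pow_ne' {n : ℕ} (hn : n < 3) (h : om ^ n = 1) : n = 0 := by
  interval_cases n
  · rfl
  · exact absurd (by simpa using h) om_ne_one
  · exfalso
    apply om_ne_one
    have : om ^ 3 = om * om ^ 2 := by ring
    rw [h, mul_one, om_cube] at this
    exact this.symm

/-- the common argument -/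
theorem core (hLB : LBStmt) {H : Subgroup Gam} {θ : Qbar} {ψ : Gam → ZMod 3} {z : Qbar}
    (hD : PsiData H θ ψ z) (p : ℕ) [Fact p.Prime] (h949 : ‖(949 : Om p)‖ = 1)
    (h256 : ‖(25631 : Om p)‖ = 1) (i : Qbar →+* Om p) (π c : Om p) (hc : c ∈ FF i θ)
    (hzc : i z = π + c) (hπ : π ≠ 0)
    (h3 : ∃ a ∈ FF i θ, ∃ b ∈ FF i θ, ∃ c ∈ FF i θ, π ^ 3 = a + b * π + c * π ^ 2)
    (hn1 : ∀ a ∈ FF i θ, ‖a‖ ≠ ‖π‖) (hn2 : ∀ a ∈ FF i θ, ‖a‖ ≠ ‖π‖ ^ 2) : False := by
  obtain ⟨R, hR⟩ := hD.loc p i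
  -- automorphisms fixing `F` come from `H`
  have hres : ∀ g : Gp p, (∀ a ∈ FF i θ, g a = a) → ∃ s : Gam, Res i g s ∧ s om = om ∧ s ∈ H := by
    intro g hg
    obtain ⟨s, hs⟩ := exists_res i g
    have h1 : s om = om := (res_om hs).1 (hg _ (om_mem_FF i θ))
    have h2 : s θ = θ := (res_eq hs θ θ).1 (hg _ (th_mem_FF i θ))
    exact ⟨s, hs, h1, (hD.setup.mem s h1).2 h2⟩
  have hgz : ∀ (g : Gp p) (s : Gam), Res i g s → s om = om → s ∈ H →
      g (i z) = i (om ^ (ψ s).val) * i z := by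
    intro g s hs h1 h2
    rw [hs z, hD.gen s h2 h1, map_mul]
  have hiz : i z ≠ 0 := (map_ne_zero i).2 hD.ne
  -- hence `ψ` vanishes on the automorphisms fixing `F`
  have hψ0 : ∀ (g : Gp p) (s : Gam), (∀ a ∈ FF i θ, g a = a) → Res i g s → s om = om → s ∈ H →
      ψ s = 0 := by
    intro g s hg hs h1 h2
    have hlb := hLB p h949 h256 (FF i θ) π hπ h3 hn1 hn2 R (by
      intro g' hg' hgπ
      obtain ⟨s', hs', h1', h2'⟩ := hres g' hg'
      have h3' := hgz g' s' hs' h1' h2'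
      have h4' : g' (i z) = i z := by rw [hzc, map_add, hgπ, hg' c hc]
      rw [h4'] at h3'
      have h5' : om ^ (ψ s').val = 1 := by
        apply i.injective
        rw [map_one]
        have := mul_right_cancel₀ hiz ((one_mul _).trans h3')
        exact this.symm
      have h6' : (ψ s').val = 0 := om_pow_ne' (ZMod.val_lt _) h5'
      have h7' := hR g' s' h2' hs'
      rw [h6', zero_nsmul] at h7'
      exact (sub_eq_zero.1 h7'.symm)) g hg
    have h8 := hR g s h2 hs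
    rw [← h8] at hlb
    have h9 : (ψ s).val < 3 := ZMod.val_lt _
    have h10 : (ψ s).val = 0 := by
      obtain ⟨k1, k2⟩ := hlb
      interval_cases hv : (ψ s).val
      · rfl
      · exact absurd (one_nsmul _) k1
      · exact absurd (by rw [two_nsmul, PT_add_PT]) k2
    exact (ZMod.val_eq_zero _).1 h10
  -- so `π ∈ F`
  have hπF : π ∈ FF i θ := by
    rw [mem_iff_fixed]
    intro g hg
    obtain ⟨s, hs, h1, h2⟩ := hres g hg
    have h3' := hgz g s hs h1 h2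
    rw [hψ0 g s hg hs h1 h2, ZMod.val_zero, pow_zero, map_one, one_mul, hzc, map_add, hg c hc] at h3'
    exact add_right_cancel h3'
  exact hn1 π hπF rfl

/-- **C3** -/
theorem psiA : OmStmt → LBStmt → PsiAStmt := by
  intro hOm hLB H θ ψ z hD p _ hp3 h13 h73 h19 i
  obtain ⟨a, b, hab⟩ := hD.cube
  obtain ⟨w, hw⟩ := hOm p hp3 i
  have hp : p.Prime := Fact.out
  have hp0 : (0 : ℝ) < p := by exact_mod_cast hp.pos
  have hp1 : (p : ℝ) ≠ 1 := by exact_mod_cast hp.one_lt.ne'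
  -- the cube is in `ℚ_p`
  have hcube : i z ^ 3 = algebraMap ℚ_[p] (Om p) (a + b * w) := by
    rw [← map_pow, hab, map_add, map_mul, hw, map_add, map_mul]
    simp
  have hz0 : i z ≠ 0 := (map_ne_zero i).2 hD.ne
  set q : ℚ_[p] := a + b * w with hq
  have hq0 : q ≠ 0 := by
    intro h0
    rw [h0, map_zero] at hcube
    exact hz0 (pow_eq_zero_iff (by norm_num) |>.1 hcube)
  have hn : ‖i z‖ ^ 3 = (p : ℝ) ^ (-q.valuation) := by
    rw [← norm_pow, hcube, norm_algebraMap, Padic.norm_eq_zpow_neg_valuation hq0]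
  rw [map_pow, norm_pow, hn]
  by_cases hdvd : (3 : ℤ) ∣ q.valuation
  · obtain ⟨n, hn'⟩ := hdvd
    exact ⟨-n, by rw [hn']; congr 1; ring⟩
  exfalso
  have hcop : ∀ n : ℕ, ¬ p ∣ n → ‖(n : Om p)‖ = 1 := fun n h =>
    norm_nat_eq_one n ((Nat.Prime.coprime_iff_not_dvd hp).2 h)
  have h949 : ‖(949 : Om p)‖ = 1 := by
    have := hcop 949 (by
      intro hd
      have h1 : p ∣ 13 * 73 := by simpa using hd
      rcases (Nat.Prime.dvd_mul hp).1 h1 with h | h
      · exact h13 ((Nat.prime_dvd_prime_iff_eq hp (by norm_num)).1 h)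
      · exact h73 ((Nat.prime_dvd_prime_iff_eq hp (by norm_num)).1 h))
    exact_mod_cast this
  have h256 : ‖(25631 : Om p)‖ = 1 := by
    have := hcop 25631 (by
      intro hd
      have h1 : p ∣ 19 * (19 * 71) := by simpa using hd
      rcases (Nat.Prime.dvd_mul hp).1 h1 with h | h
      · exact h19 ((Nat.prime_dvd_prime_iff_eq hp (by norm_num)).1 h)
      · rcases (Nat.Prime.dvd_mul hp).1 h with h | h
        · exact h19 ((Nat.prime_dvd_prime_iff_eq hp (by norm_num)).1 h)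
        · have := (Nat.prime_dvd_prime_iff_eq hp (by norm_num)).1 h
          rw [this] at hp3
          norm_num at hp3)
    exact_mod_cast this
  have hval := hD.val p h13 h73 h19 i
  have hzn : ‖i z‖ ≠ 0 := norm_ne_zero_iff.2 hz0
  have hFq : ∀ x : ℚ_[p], algebraMap ℚ_[p] (Om p) x ∈ FF i θ := fun x => (FF i θ).algebraMap_mem x
  refine core hLB hD p h949 h256 i (i z) 0 (FF i θ).zero_mem (add_zero _).symm hz0
    ⟨i z ^ 3, by rw [hcube]; exact hFq _, 0, (FF i θ).zero_mem, 0, (FF i θ).zero_mem, by ring⟩ ?_ ?_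
  · intro x hx he
    have hx0 : x ≠ 0 := by
      intro h; rw [h, norm_zero] at he; exact hzn he.symm
    obtain ⟨m, hm⟩ := hval x hx hx0
    have h1 : (‖x‖ ^ 2) ^ 3 = (‖i z‖ ^ 3) ^ 2 := by rw [he]; ring
    rw [hm, hn, ← zpow_natCast, ← zpow_natCast, ← zpow_mul, ← zpow_mul] at h1
    have h2 := zpow_right_injective₀ hp0 hp1 h1
    push_cast at h2
    omega
  · intro x hx he
    have hx0 : x ≠ 0 := by
      intro h; rw [h, norm_zero] at he
      exact hzn (pow_eq_zero_iff (by norm_num) |>.1 he.symm)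
    obtain ⟨m, hm⟩ := hval x hx hx0
    have h1 : (‖x‖ ^ 2) ^ 3 = (‖i z‖ ^ 3) ^ 4 := by rw [he]; ring
    rw [hm, hn, ← zpow_natCast, ← zpow_natCast, ← zpow_mul, ← zpow_mul] at h1
    have h2 := zpow_right_injective₀ hp0 hp1 h1
    push_cast at h2
    omega

/-! ### the prime `3` -/

section three

variable {A : Type*} [NormedField A] [IsUltrametricDist A]

theorem norm_sub_le_max' (x y : A) : ‖x - y‖ ≤ max ‖x‖ ‖y‖ := by
  rw [sub_eq_add_neg]
  refine (IsUltrametricDist.norm_add_le_max _ _).trans ?_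
  rw [norm_neg]

theorem norm_add_eq_of_lt {x y : A} (h : ‖y‖ < ‖x‖) : ‖x + y‖ = ‖x‖ := by
  refine le_antisymm ((IsUltrametricDist.norm_add_le_max _ _).trans (max_le le_rfl h.le)) ?_
  have e : x = (x + y) - y := by ring
  have h1 : ‖x‖ ≤ max ‖x + y‖ ‖y‖ := by
    conv_lhs => rw [e]
    exact norm_sub_le_max' _ _
  rcases le_max_iff.1 h1 with h2 | h2
  · exact h2
  · exact absurd h2 (not_le.2 h)

theorem one_near_mul {x y : A} {r : ℝ} (hr : r ≤ 1) (hx : ‖x - 1‖ ≤ r) (hy : ‖y - 1‖ ≤ r) :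
    ‖x * y - 1‖ ≤ r := by
  have hx1 : ‖x‖ ≤ 1 := by
    have e : x = (x - 1) + 1 := by ring
    rw [e]
    refine (IsUltrametricDist.norm_add_le_max _ _).trans (max_le (hx.trans hr) ?_)
    rw [norm_one]
  have e : x * y - 1 = x * (y - 1) + (x - 1) := by ring
  rw [e]
  refine (IsUltrametricDist.norm_add_le_max _ _).trans (max_le ?_ hx)
  rw [norm_mul]
  calc ‖x‖ * ‖y - 1‖ ≤ 1 * ‖y - 1‖ := mul_le_mul_of_nonneg_right hx1 (norm_nonneg _)
    _ ≤ r := by rw [one_mul]; exact hy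

theorem one_near_pow {x : A} {r : ℝ} (hr0 : 0 ≤ r) (hr : r ≤ 1) (hx : ‖x - 1‖ ≤ r) (n : ℕ) :
    ‖x ^ n - 1‖ ≤ r := by
  induction n with
  | zero => simpa using hr0
  | succ n ih => rw [pow_succ]; exact one_near_mul hr ih hx

theorem norm_eq_one_of_near {x : A} {r : ℝ} (hr : r < 1) (hx : ‖x - 1‖ ≤ r) : ‖x‖ = 1 := by
  have e : x = 1 + (x - 1) := by ring
  rw [e, norm_add_eq_of_lt (by rw [norm_one]; exact hx.trans_lt hr), norm_one]

/-- the computation at `3` -/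
theorem three_aux (W Z K : A) (e : ℕ) (he : e = 1 ∨ e = 2) (hW : W ^ 2 + W + 1 = 0)
    (h3 : ‖(3 : A)‖ = 1 / 3) (hZ : Z ^ 3 = W ^ e * K) (hK : ‖K - 1‖ ≤ 1 / 3) :
    ‖Z - 1‖ ^ 6 = 1 / 3 := by
  have hW3 : W ^ 3 = 1 := by linear_combination (W - 1) * hW
  have hWn : ‖W‖ = 1 := by
    have h1 : ‖W‖ ^ 3 = 1 := by rw [← norm_pow, hW3, norm_one]
    exact (pow_eq_one_iff_of_nonneg (norm_nonneg _) (by norm_num)).1 h1
  have h1W : ‖1 - W‖ ^ 2 = 1 / 3 := by
    have e1 : (1 - W) ^ 2 = -(3 * W) := by linear_combination hW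
    rw [← norm_pow, e1, norm_neg, norm_mul, hWn, h3, mul_one]
  have hWe : ‖W ^ e - 1‖ = ‖1 - W‖ := by
    rcases he with rfl | rfl
    · rw [pow_one, norm_sub_rev]
    · have e1 : W ^ 2 - 1 = (1 - W) * W ^ 2 := by linear_combination (W - 1) * hW
      rw [e1, norm_mul, norm_pow, hWn, one_pow, mul_one]
  have hlt : (1 : ℝ) / 3 < ‖1 - W‖ := by
    nlinarith [norm_nonneg (1 - W), h1W]
  have hKn : ‖K‖ = 1 := norm_eq_one_of_near (by norm_num) hK
  have hcube : ‖Z ^ 3 - 1‖ = ‖1 - W‖ := by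
    have e1 : Z ^ 3 - 1 = (W ^ e - 1) * K + (K - 1) := by rw [hZ]; ring
    have e2 : ‖(W ^ e - 1) * K‖ = ‖1 - W‖ := by rw [norm_mul, hKn, hWe, mul_one]
    rw [e1, norm_add_eq_of_lt (by rw [e2]; exact hK.trans_lt hlt), e2]
  have hZn : ‖Z‖ = 1 := by
    have h1 : ‖Z‖ ^ 3 = 1 := by
      rw [← norm_pow, hZ, norm_mul, norm_pow, hWn, hKn]; simp
    exact (pow_eq_one_iff_of_nonneg (norm_nonneg _) (by norm_num)).1 h1
  have hpi : ‖Z - 1‖ ≤ 1 := by
    refine (norm_sub_le_max' _ _).trans ?_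
    rw [hZn, norm_one, max_self]
  have hsmall : ‖-(3 * (Z - 1) * Z)‖ < ‖Z ^ 3 - 1‖ := by
    rw [norm_neg, norm_mul, norm_mul, hZn, h3, hcube, mul_one]
    calc 1 / 3 * ‖Z - 1‖ ≤ 1 / 3 * 1 := by gcongr
      _ < ‖1 - W‖ := by rw [mul_one]; exact hlt
  have hfin : ‖Z - 1‖ ^ 3 = ‖1 - W‖ := by
    have e1 : (Z - 1) ^ 3 = (Z ^ 3 - 1) + -(3 * (Z - 1) * Z) := by ring
    rw [← norm_pow, e1, norm_add_eq_of_lt hsmall, hcube]
  calc ‖Z - 1‖ ^ 6 = (‖Z - 1‖ ^ 3) ^ 2 := by ring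
    _ = 1 / 3 := by rw [hfin, h1W]

end three

/-- **C4** -/
theorem psiB : LBStmt → PsiBStmt := by
  intro hLB H θ ψ z hD e x y c he hx hy hc hz
  by_contra he0
  have he12 : e = 1 ∨ e = 2 := by omega
  have : Fact (Nat.Prime 3) := ⟨Nat.prime_three⟩
  obtain ⟨i⟩ : Nonempty (Qbar →+* Om 3) := by
    have f : Qbar →ₐ[ℚ] Om 3 := IsAlgClosed.lift
    exact ⟨f.toRingHom⟩
  obtain ⟨a, b, hab⟩ := hD.cube
  have h3n : ‖(3 : Om 3)‖ = 1 / 3 := by
    have h := norm_natCast (p := 3) 3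
    rw [Padic.norm_p] at h
    rw [one_div]
    exact_mod_cast h
  have hz3 : ∀ n : ℤ, ‖(n : Om 3)‖ ≤ 1 := fun n => IsUltrametricDist.norm_intCast_le_one _ n
  have hW : (i om) ^ 2 + i om + 1 = 0 := by
    have := congrArg i om_spec
    simpa using this
  have hWn : ‖i om‖ ≤ 1 := by
    have h1 : ‖i om‖ ^ 3 = 1 := by rw [← norm_pow, ← map_pow, om_cube, map_one, norm_one]
    exact ((pow_eq_one_iff_of_nonneg (norm_nonneg _) (by norm_num)).1 h1).le
  have hgen : ∀ (X : Om 3) (m n : ℤ), X - 1 = 3 * (m + n * i om) → ‖X - 1‖ ≤ 1 / 3 := by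
    intro X m n h
    rw [h, norm_mul, h3n]
    have h1 : ‖(m : Om 3) + n * i om‖ ≤ 1 := by
      refine (IsUltrametricDist.norm_add_le_max _ _).trans (max_le (hz3 m) ?_)
      rw [norm_mul]
      exact mul_le_one₀ (hz3 n) (norm_nonneg _) hWn
    linarith
  have k13 : ‖i ka13 - 1‖ ≤ 1 / 3 := hgen _ 17 13 (by
    rw [ka13, map_mul, map_add, map_mul, map_ofNat, map_ofNat, map_ofNat]; push_cast; ring)
  have k73 : ‖i ka73 - 1‖ ≤ 1 / 3 := hgen _ 24 219 (by
    rw [ka73, map_mul, map_add, map_mul, map_ofNat, map_ofNat, map_one]; push_cast; ring)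
  have k19 : ‖i ka19 - 1‖ ≤ 1 / 3 := hgen _ (-13) 19 (by
    rw [ka19, map_mul, map_add, map_mul, map_neg, map_ofNat, map_ofNat, map_ofNat]
    push_cast; ring)
  have hK : ‖i (ka13 ^ x * ka73 ^ y * ka19 ^ c) - 1‖ ≤ 1 / 3 := by
    rw [map_mul, map_mul, map_pow, map_pow, map_pow]
    exact one_near_mul (by norm_num) (one_near_mul (by norm_num)
      (one_near_pow (by norm_num) (by norm_num) k13 x)
      (one_near_pow (by norm_num) (by norm_num) k73 y))
      (one_near_pow (by norm_num) (by norm_num) k19 c)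
  have hZ : (i z) ^ 3 = (i om) ^ e * i (ka13 ^ x * ka73 ^ y * ka19 ^ c) := by
    rw [← map_pow, ← map_pow, ← map_mul, hz]; congr 1; ring
  have h6 := three_aux (i om) (i z) _ e he12 hW h3n hZ hK
  have h949 : ‖(949 : Om 3)‖ = 1 := by
    have := norm_nat_eq_one (p := 3) 949 (by norm_num)
    exact_mod_cast this
  have h256 : ‖(25631 : Om 3)‖ = 1 := by
    have := norm_nat_eq_one (p := 3) 25631 (by norm_num)
    exact_mod_cast this
  have hpi : i z - 1 ≠ 0 := by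
    intro h0
    rw [h0, norm_zero] at h6
    norm_num at h6
  have hval := hD.val 3 (by norm_num) (by norm_num) (by norm_num) i
  have hcast : ((3 : ℕ) : ℝ) = 3 := by norm_num
  have hQ : ∀ q : ℚ, (q : Om 3) ∈ FF i θ := by
    intro q
    have h := (FF i θ).algebraMap_mem (q : ℚ_[3])
    rwa [map_ratCast] at h
  have hzF : (i z) ^ 3 ∈ FF i θ := by
    rw [← map_pow, hab, map_add, map_mul]
    simp only [map_ratCast]
    exact (FF i θ).add_mem (hQ a) ((FF i θ).mul_mem (hQ b) (om_mem_FF i θ))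
  have h3F : (3 : Om 3) ∈ FF i θ := by
    have h := hQ 3
    rwa [Rat.cast_ofNat] at h
  refine core hLB hD 3 h949 h256 i (i z - 1) 1 (FF i θ).one_mem (by ring) hpi
    ⟨(i z) ^ 3 - 1, (FF i θ).sub_mem hzF (FF i θ).one_mem, -3, (FF i θ).neg_mem h3F, -3,
      (FF i θ).neg_mem h3F, by ring⟩ ?_ ?_
  · intro u hu hue
    have hu0 : u ≠ 0 := by
      intro h; rw [h, norm_zero] at hue; exact hpi (norm_eq_zero.1 hue.symm)
    obtain ⟨m, hm⟩ := hval u hu hu0
    have h1 : (‖u‖ ^ 2) ^ 3 = 1 / 3 := by rw [hue, ← pow_mul]; exact h6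
    rw [hm, hcast, ← zpow_natCast, ← zpow_mul, one_div, ← zpow_neg_one] at h1
    have h2 := zpow_right_injective₀ (by norm_num : (0 : ℝ) < 3) (by norm_num) h1
    push_cast at h2
    omega
  · intro u hu hue
    have hu0 : u ≠ 0 := by
      intro h; rw [h, norm_zero] at hue
      exact hpi (norm_eq_zero.1 (pow_eq_zero_iff (by norm_num) |>.1 hue.symm))
    obtain ⟨m, hm⟩ := hval u hu hu0
    have h1 : (‖u‖ ^ 2) ^ 3 = (1 / 3) ^ 2 := by rw [hue, ← h6]; ring
    rw [hm, hcast, ← zpow_natCast, ← zpow_mul, one_div, ← zpow_neg_one, ← zpow_natCast,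
      ← zpow_mul] at h1
    have h2 := zpow_right_injective₀ (by norm_num : (0 : ℝ) < 3) (by norm_num) h1
    push_cast at h2
    omega

end H46
end F8
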