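import Pool.Agent.H15.F8.Targets

/-!
# Project MP_f8d35d_nt: module C6 (Hilbert 90 for the cyclic cubic field)
-/

namespace F8.H46

theorem th_ne_zero' : th ≠ 0 := by
  intro h
  have h1 := th_spec
  rw [h, ka] at h1
  have h2 : (10 - 129 * om : Qbar) = 0 := by
    have h3 : (18031 : Qbar) * (10 - 129 * om) = 0 := by rw [← h1]; ring
    exact (mul_eq_zero.mp h3).resolve_left (by norm_num)
  have h3 : (10 - 129 * om : Qbar) * (139 + 129 * om) = 18031 := by
    linear_combination (-16641 : Qbar) * om_spec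
  rw [h2, zero_mul] at h3
  norm_num at h3

/-- the conjugate `18031 / th` -/
noncomputable def sth : Qbar := 18031 / th

theorem th_mul_sth : th * sth = 18031 := by
  rw [sth, mul_div_cancel₀ _ th_ne_zero']

theorem sth_cube : sth ^ 3 = 18031 * (139 + 129 * om) := by
  have h1 : (th * sth) ^ 3 = 18031 ^ 3 := by rw [th_mul_sth]
  have h2 : th ^ 3 * sth ^ 3 = th ^ 3 * (18031 * (139 + 129 * om)) := by
    rw [← mul_pow, h1, th_spec, ka]
    linear_combination (16641 * 18031 ^ 2 : Qbar) * om_spec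
  exact mul_left_cancel₀ (pow_ne_zero 3 th_ne_zero') h2

theorem th_cube_ne : th ^ 3 ≠ sth ^ 3 := by
  rw [th_spec, sth_cube, ka]
  intro h
  have h1 : (1 + 2 * om : Qbar) = 0 := by
    have : (18031 * 129 : Qbar) * (1 + 2 * om) = 0 := by linear_combination -h
    exact (mul_eq_zero.mp this).resolve_left (by norm_num)
  have h2 : (1 + 2 * om : Qbar) ^ 2 = -3 := by linear_combination (4 : Qbar) * om_spec
  rw [h1] at h2
  norm_num at h2

theorem vt_eq : vt = th + sth := rfl

theorem th_mul_ne (e : Qbar) (he : e ^ 3 = 1) : th ≠ e * sth := by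
  intro h
  apply th_cube_ne
  rw [h, mul_pow, he, one_mul]

theorem vt_sq_ne : vt ^ 2 - 18031 ≠ 0 := by
  intro h
  apply th_cube_ne
  have h1 : th ^ 2 + th * sth + sth ^ 2 = 0 := by
    rw [vt_eq] at h
    linear_combination h - th_mul_sth
  linear_combination (th - sth) * h1

section

variable {σ : Gam} (h1 : σ om = om) (h2 : σ th = om * th)
include h1 h2

set_option linter.unusedSectionVars false in
theorem sig_sth : σ sth = om ^ 2 * sth := by
  have e : σ th * σ sth = 18031 := by
    rw [← map_mul, th_mul_sth]; exact map_ofNat σ 18031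
  rw [h2] at e
  have e2 : (om * th) * (om ^ 2 * sth) = 18031 := by
    linear_combination om ^ 3 * th_mul_sth + 18031 * om_cube
  exact mul_left_cancel₀ (mul_ne_zero om_ne_zero th_ne_zero') (e.trans e2.symm)

theorem sig_vt : σ vt = om * th + om ^ 2 * sth := by
  rw [vt_eq, map_add, h2, sig_sth h1 h2]

theorem sig_sig_vt : σ (σ vt) = om ^ 2 * th + om * sth := by
  rw [sig_vt h1 h2, map_add, map_mul, map_mul, map_pow, h1, h2, sig_sth h1 h2]
  linear_combination (om * sth) * om_cube

theorem sig3_vt : σ (σ (σ vt)) = vt := by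
  rw [sig_sig_vt h1 h2, map_add, map_mul, map_mul, map_pow, h1, h2, sig_sth h1 h2, vt_eq]
  linear_combination (th + sth) * om_cube

theorem sig_vt_mem : σ vt ∈ KK := by
  have hv : vt ∈ KK := IntermediateField.mem_adjoin_simple_self ℚ vt
  have e : σ vt = (-vt + 387 * 18031 / (vt ^ 2 - 18031)) / 2 := by
    rw [sig_vt h1 h2, eq_div_iff (two_ne_zero), eq_comm, ← sub_eq_zero]
    have hk : 387 * 18031 / (vt ^ 2 - 18031) = (om - om ^ 2) * (th - sth) := by
      rw [div_eq_iff vt_sq_ne]
      have k1 : (th - sth) * (th ^ 2 + th * sth + sth ^ 2) = -129 * 18031 * (1 + 2 * om) := by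
        have k0 : (th - sth) * (th ^ 2 + th * sth + sth ^ 2) = th ^ 3 - sth ^ 3 := by ring
        rw [k0, th_spec, sth_cube, ka]; ring
      have k2 : vt ^ 2 - 18031 = th ^ 2 + th * sth + sth ^ 2 := by
        rw [vt_eq]; linear_combination th_mul_sth
      rw [k2, mul_assoc, k1]
      linear_combination (-129 * 18031 * (2 * om - 3) : Qbar) * om_spec
    rw [hk, vt_eq]
    linear_combination (-(th + sth)) * om_spec
  rw [e]
  have hq : ∀ n : ℕ, (n : Qbar) ∈ KK := fun n => natCast_mem KK n
  have h2' : (2 : Qbar) ∈ KK := by exact_mod_cast hq 2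
  have h3' : (387 * 18031 : Qbar) ∈ KK := by exact_mod_cast hq (387 * 18031)
  have h4' : (18031 : Qbar) ∈ KK := by exact_mod_cast hq 18031
  exact KK.div_mem (KK.add_mem (KK.neg_mem hv) (KK.div_mem h3' (KK.sub_mem (pow_mem hv 2) h4')))
    h2'

theorem sig_mem (x : Qbar) (hx : x ∈ KK) : σ x ∈ KK := by
  have h : KK ≤ KK.comap (σ : Qbar →ₐ[ℚ] Qbar) := by
    rw [KK, IntermediateField.adjoin_le_iff]
    intro a ha
    rw [Set.mem_singleton_iff] at ha
    subst ha
    exact sig_vt_mem h1 h2
  exact h hx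

theorem sig3 (x : Qbar) (hx : x ∈ KK) : σ (σ (σ x)) = x := by
  have := fix_adjoin (k := ℚ) ({vt} : Set Qbar) (σ * σ * σ) (by
    intro a ha
    rw [Set.mem_singleton_iff] at ha
    subst ha
    exact sig3_vt h1 h2) x hx
  exact this

end

/-- **C6** -/
theorem h90KStmt : H90KStmt := by
  intro σ h1 h2 u hu hn
  have hu0 : u ≠ 0 := by
    intro h; rw [h] at hn; simp at hn
  have hsu0 : σ u ≠ 0 := (map_ne_zero σ).2 hu0
  -- the candidates
  set V : Qbar → Qbar := fun a => a + u⁻¹ * σ a + u⁻¹ * (σ u)⁻¹ * σ (σ a) with hV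
  have hVK : ∀ a ∈ KK, V a ∈ KK := fun a ha =>
    KK.add_mem (KK.add_mem ha (KK.mul_mem (KK.inv_mem hu) (sig_mem h1 h2 a ha)))
      (KK.mul_mem (KK.mul_mem (KK.inv_mem hu) (KK.inv_mem (sig_mem h1 h2 u hu)))
        (sig_mem h1 h2 _ (sig_mem h1 h2 a ha)))
  have hsV : ∀ a ∈ KK, σ (V a) = u * V a := by
    intro a ha
    have e : σ (V a) = σ a + (σ u)⁻¹ * σ (σ a) + (σ u)⁻¹ * (σ (σ u))⁻¹ * a := by
      simp only [hV, map_add, map_mul, map_inv₀]
      rw [sig3 h1 h2 a ha]
    rw [e]
    have e2 : (σ u)⁻¹ * (σ (σ u))⁻¹ = u := by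
      rw [← mul_inv]
      exact inv_eq_of_mul_eq_one_left (by rw [← mul_assoc]; exact hn)
    rw [e2]
    simp only [hV]
    field_simp
    ring
  -- one of them is not zero
  by_contra hcon
  push Not at hcon
  have hz : ∀ a ∈ KK, V a = 0 := by
    intro a ha
    by_contra h0
    exact hcon (V a) (hVK a ha) h0 (hsV a ha)
  have hv : vt ∈ KK := IntermediateField.mem_adjoin_simple_self ℚ vt
  have z0 := hz 1 KK.one_mem
  have z1 := hz vt hv
  have z2 := hz (vt ^ 2) (pow_mem hv 2)
  simp only [hV, map_one, mul_one] at z0 z1 z2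
  rw [map_pow, map_pow] at z2
  have key : (vt - σ vt) * (vt - σ (σ vt)) = 0 := by
    linear_combination z2 - (σ vt + σ (σ vt)) * z1 + σ vt * σ (σ vt) * z0
  rcases mul_eq_zero.mp key with h | h
  · rw [sig_vt h1 h2, vt_eq] at h
    have h3 : (1 - om) * (th - om ^ 2 * sth) = 0 := by
      linear_combination h + sth * om_cube
    rcases mul_eq_zero.mp h3 with h4 | h4
    · exact om_ne_one (by linear_combination -h4)
    · exact th_mul_ne (om ^ 2) (by rw [← pow_mul, mul_comm, pow_mul, om_cube, one_pow])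
        (by linear_combination h4)
  · rw [sig_sig_vt h1 h2, vt_eq] at h
    have h3 : (1 - om ^ 2) * (th - om * sth) = 0 := by
      linear_combination h + sth * om_cube
    rcases mul_eq_zero.mp h3 with h4 | h4
    · have h5 : (1 - om) * (1 + om) = 0 := by linear_combination h4
      rcases mul_eq_zero.mp h5 with h6 | h6
      · exact om_ne_one (by linear_combination -h6)
      · have : om ^ 2 = 0 := by linear_combination om_spec - h6
        exact om_ne_zero (pow_eq_zero_iff (two_ne_zero) |>.1 this)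
    · exact th_mul_ne om om_cube (by linear_combination h4)

end F8.H46
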