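import Pool.Agent.H15.F8.Targets

/-!
# Project MP_f8d35d_nt: module L4 (good reduction, totally ramified cubic extensions)
-/

namespace F8

section near

variable {A : Type*} [NormedField A] [IsUltrametricDist A]

/-- congruence modulo the maximal ideal -/
theorem near_add {x x' y y' : A} (hx : ‖x - x'‖ < 1) (hy : ‖y - y'‖ < 1) :
    ‖(x + y) - (x' + y')‖ < 1 := by
  have e : (x + y) - (x' + y') = (x - x') + (y - y') := by ring
  rw [e]
  exact (IsUltrametricDist.norm_add_le_max _ _).trans_lt (max_lt hx hy)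

theorem near_mul {x x' y y' : A} (hx : ‖x - x'‖ < 1) (hy : ‖y - y'‖ < 1) (h1 : ‖x‖ ≤ 1)
    (h2 : ‖y'‖ ≤ 1) : ‖x * y - x' * y'‖ < 1 := by
  have e : x * y - x' * y' = x * (y - y') + (x - x') * y' := by ring
  rw [e]
  refine (IsUltrametricDist.norm_add_le_max _ _).trans_lt (max_lt ?_ ?_)
  · rw [norm_mul]
    calc ‖x‖ * ‖y - y'‖ ≤ 1 * ‖y - y'‖ := mul_le_mul_of_nonneg_right h1 (norm_nonneg _)
      _ < 1 := by rw [one_mul]; exact hy
  · rw [norm_mul]
    calc ‖x - x'‖ * ‖y'‖ ≤ ‖x - x'‖ * 1 := mul_le_mul_of_nonneg_left h2 (norm_nonneg _)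
      _ < 1 := by rw [mul_one]; exact hx

theorem norm_eq_of_near {x y : A} (h : ‖x - y‖ < ‖x‖) : ‖y‖ = ‖x‖ := by
  have h1 : ‖y‖ ≤ ‖x‖ := by
    have e : y = x + -(x - y) := by ring
    rw [e]
    refine (IsUltrametricDist.norm_add_le_max _ _).trans ?_
    rw [norm_neg]
    exact max_le le_rfl h.le
  have h2 : ‖x‖ ≤ ‖y‖ := by
    by_contra hcon
    have e : x = y + (x - y) := by ring
    have h3 : ‖x‖ ≤ max ‖y‖ ‖x - y‖ := by
      conv_lhs => rw [e]
      exact IsUltrametricDist.norm_add_le_max _ _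
    exact absurd h3 (not_le.2 (max_lt (not_le.1 hcon) h))
  exact le_antisymm h1 h2

/-- the final contradiction -/
theorem near_cubic (r0 r1 r2 b c : A) (h0 : ‖r0 - b‖ < 1) (h1 : ‖r1 - b‖ < 1) (h2 : ‖r2 - b‖ < 1)
    (n0 : ‖r0‖ = 1) (n1 : ‖r1‖ = 1) (nc : ‖c‖ = 1)
    (e1 : r0 * r1 * r2 = -c ^ 2) (e2 : r0 * r1 + r0 * r2 + r1 * r2 = -2 * c) :
    ‖8 + 27 * c‖ < 1 := by
  have nb : ‖b‖ = 1 := by rw [← n0]; exact norm_eq_of_near (by rw [n0]; exact h0)
  have k1 : ‖r0 * r1 - b * b‖ < 1 := near_mul h0 h1 n0.le nb.le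
  have k2 : ‖r0 * r2 - b * b‖ < 1 := near_mul h0 h2 n0.le nb.le
  have k3 : ‖r1 * r2 - b * b‖ < 1 := near_mul h1 h2 n1.le nb.le
  have k4 : ‖r0 * r1 * r2 - b * b * b‖ < 1 :=
    near_mul k1 h2 (by rw [norm_mul, n0, n1, one_mul]) nb.le
  have k5 : ‖(r0 * r1 + r0 * r2 + r1 * r2) - (b * b + b * b + b * b)‖ < 1 :=
    near_add (near_add k1 k2) k3
  rw [e1] at k4
  rw [e2] at k5
  have hz : ∀ z : ℤ, ‖(z : A)‖ ≤ 1 := fun z => IsUltrametricDist.norm_intCast_le_one A z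
  have n3 : ‖(-2 : A) * c‖ ≤ 1 := by
    rw [norm_mul, nc, mul_one]
    have := hz (-2); push_cast at this; exact this
  have n4 : ‖b * b + b * b + b * b‖ ≤ 1 := by
    have e : b * b + b * b + b * b = ((3 : ℤ) : A) * (b * b) := by push_cast; ring
    rw [e, norm_mul, norm_mul, nb, mul_one, mul_one]
    exact hz 3
  have n5 : ‖b * b * b‖ ≤ 1 := by rw [norm_mul, norm_mul, nb]; norm_num
  have n6 : ‖-c ^ 2‖ ≤ 1 := by rw [norm_neg, norm_pow, nc]; norm_num
  have k6 := near_mul k5 k5 n3 n4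
  have k7 := near_mul k6 k5 (by rw [norm_mul]; exact mul_le_one₀ n3 (norm_nonneg _) n3) n4
  have k8 := near_mul k4 k4 n6 n5
  have e9 : (8 + 27 * c) * c ^ 3 = -((-2 * c * (-2 * c) * (-2 * c) -
      (b * b + b * b + b * b) * (b * b + b * b + b * b) * (b * b + b * b + b * b)) -
      ((27 : ℤ) : A) * (-c ^ 2 * -c ^ 2 - b * b * b * (b * b * b))) := by
    push_cast; ring
  have e10 : ‖(8 + 27 * c) * c ^ 3‖ < 1 := by
    rw [e9, norm_neg, sub_eq_add_neg]
    refine (IsUltrametricDist.norm_add_le_max _ _).trans_lt (max_lt k7 ?_)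
    rw [norm_neg, norm_mul]
    calc ‖((27 : ℤ) : A)‖ * ‖-c ^ 2 * -c ^ 2 - b * b * b * (b * b * b)‖
        ≤ 1 * ‖-c ^ 2 * -c ^ 2 - b * b * b * (b * b * b)‖ :=
          mul_le_mul_of_nonneg_right (hz 27) (norm_nonneg _)
      _ < 1 := by rw [one_mul]; exact k8
  rw [norm_mul, norm_pow, nc, one_pow, mul_one] at e10
  exact e10

end near

/-- the case `g R = R + P` -/
theorem lb_aux (hW : AddPStmt) (hD : DomStmt) (p : ℕ) [Fact p.Prime] (h949 : ‖(949 : Om p)‖ = 1)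
    (hD1 : ‖(25631 : Om p)‖ = 1) (F : IntermediateField ℚ_[p] (Om p)) (π : Om p) (hπ : π ≠ 0)
    (h3 : ∃ a ∈ F, ∃ b ∈ F, ∃ c ∈ F, π ^ 3 = a + b * π + c * π ^ 2)
    (hn1 : ∀ a ∈ F, ‖a‖ ≠ ‖π‖) (hn2 : ∀ a ∈ F, ‖a‖ ≠ ‖π‖ ^ 2) (R : Pt (Om p))
    (hR : ∀ g : Gp p, (∀ a ∈ F, g a = a) → g π = π → pm (g : Om p →+* Om p) R = R)
    (g : Gp p) (hg : ∀ a ∈ F, g a = a) : pm (g : Om p →+* Om p) R ≠ R + PT := by
  intro hgR
  -- `xc R ≠ 0`
  have hx : xc R ≠ 0 := by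
    intro h0
    have h1 : pm (g : Om p →+* Om p) R = R := by
      rcases (xc_eq_zero_iff R).1 h0 with h | h | h
      · rw [h]; exact map_zero _
      · rw [h]; exact pm_PT _
      · rw [h, map_neg, pm_PT]
    rw [h1] at hgR
    exact PT_ne_zero (left_eq_add.1 hgR)
  obtain ⟨e1, e2, -⟩ := hW (Om p) R hx
  have hR0 : R ≠ 0 := by
    intro h; rw [h] at hx; exact hx rfl
  have heq := pt_eqn R hR0
  -- the conjugates
  have g1 : g (xc R) = xc (R + PT) := by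
    rw [← hgR, xc_pm]; rfl
  have g2 : g (xc (R + PT)) = xc (R - PT) := by
    have : pm (g : Om p →+* Om p) (R + PT) = R - PT := by
      rw [map_add, pm_PT, hgR, add_assoc, PT_add_PT, sub_eq_add_neg]
    rw [← this, xc_pm]; rfl
  have m1 : ‖xc (R + PT)‖ = ‖xc R‖ := by rw [← g1, norm_gal]
  have m2 : ‖xc (R - PT)‖ = ‖xc R‖ := by rw [← g2, norm_gal, m1]
  have i1 : xc R * xc (R + PT) * xc (R - PT) = -949 ^ 2 := by
    rw [e1, e2]
    have : yc R * (yc R + 2 * xc R - 949) = xc R ^ 3 := by linear_combination heq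
    field_simp
    linear_combination -this
  have i2 : xc R * xc (R + PT) + xc R * xc (R - PT) + xc (R + PT) * xc (R - PT) = -2 * 949 := by
    rw [e1, e2]
    have : yc R * (yc R + 2 * xc R - 949) = xc R ^ 3 := by linear_combination heq
    field_simp
    linear_combination -(949 : Om p) * this
  have n0 : ‖xc R‖ = 1 := by
    have := congrArg norm i1
    rw [norm_mul, norm_mul, m1, m2, norm_neg, norm_pow, h949] at this
    have h : ‖xc R‖ ^ 3 = 1 ^ 3 := by rw [one_pow]; nlinarith [this]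
    exact (pow_left_inj₀ (norm_nonneg _) zero_le_one (by norm_num : (3 : ℕ) ≠ 0)).1 h
  obtain ⟨j, hj, b, hb, hlt⟩ := hD p F π hπ h3 hn1 hn2 (xc R) hx (fun s hs hsπ => by
    have h := congrArg xc (hR s hs hsπ)
    rw [xc_pm] at h; exact h)
  have hbn : ‖b * π ^ j‖ = 1 := by rw [norm_eq_of_near hlt, n0]
  have hpn : ‖π‖ ≠ 0 := norm_ne_zero_iff.2 hπ
  have hj0 : j = 0 := by
    have hb1 : ‖b⁻¹‖ = ‖π‖ ^ j := by
      rw [norm_mul, norm_pow] at hbn
      rw [norm_inv]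
      rw [eq_inv_of_mul_eq_one_left hbn, inv_inv]
    interval_cases j
    · rfl
    · exact absurd (by rw [hb1, pow_one]) (hn1 b⁻¹ (F.inv_mem hb))
    · exact absurd hb1 (hn2 b⁻¹ (F.inv_mem hb))
  subst hj0
  rw [pow_zero, mul_one, n0] at hlt
  have hlt1 : ‖xc (R + PT) - b‖ < 1 := by
    rw [← g1, ← hg b hb, ← map_sub, norm_gal]; exact hlt
  have hlt2 : ‖xc (R - PT) - b‖ < 1 := by
    rw [← g2, ← hg b hb, ← map_sub, norm_gal]; exact hlt1
  have := near_cubic (xc R) (xc (R + PT)) (xc (R - PT)) b 949 hlt hlt1 hlt2 n0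
    (by rw [m1, n0]) h949 i1 i2
  have e : (8 + 27 * 949 : Om p) = 25631 := by norm_num
  rw [e, hD1] at this
  exact lt_irrefl _ this

/-- **L4** -/
theorem lbStmt : AddPStmt → DomStmt → LBStmt := by
  intro hW hD p _ h949 hD1 F π hπ h3 hn1 hn2 R hR g hg
  have key := lb_aux hW hD p h949 hD1 F π hπ h3 hn1 hn2
  constructor
  · intro h
    exact key R hR g hg (by rw [← h]; abel)
  · intro h
    have h1 : pm (g : Om p →+* Om p) R = R - PT := by rw [sub_eq_add_neg, ← h]; abel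
    have h2 : pm (g : Om p →+* Om p) (-R) = -R + PT := by rw [map_neg, h1]; abel
    exact key (-R) (fun s hs hsπ => by rw [map_neg, hR s hs hsπ]) g hg h2

end F8
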